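import Pool.Agent.H23.GZ.Targets5

/-!
Board gz, row SCJ: scaling of the orthogonal components of the columns and the Haar measure.
-/

namespace Pool.Agent.H47.GZ

open MeasureTheory Pool.Agent.H34.GM Pool.Agent.H34.GZ

theorem sc_sc (hS : T_SCP) {m : ℕ} (ρ ρ' : Fin m → ℝ) (h : ∀ j, 0 < ρ' j) (z : Mat m) :
    sc ρ (sc ρ' z) = sc (fun j => ρ j * ρ' j) z := by
  ext i j
  have h1 := (hS m ρ' h).1 z j
  show sc ρ' z i j + (ρ j - 1) * oc (sc ρ' z) j i = z i j + (ρ j * ρ' j - 1) * oc z j i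
  rw [h1]
  show z i j + (ρ' j - 1) * oc z j i + (ρ j - 1) * (ρ' j * oc z j i) = _
  ring

theorem sc_one {m : ℕ} (z : Mat m) : sc (fun _ => (1 : ℝ)) z = z := by
  ext i j
  show z i j + (1 - 1) * oc z j i = z i j
  ring

open Classical in
theorem vol_sc (h1 : T_SC1) (hS : T_SCP) {m : ℕ} (ρ : Fin m → ℝ) (h : ∀ j, 0 < ρ j)
    (s : Finset (Fin m)) : ∀ f : V m → ENNReal, Measurable f →
      ENNReal.ofReal (∏ j ∈ s, ρ j ^ (m - (j : ℕ))) *
        ∫⁻ z, f (fun i l => sc (fun j => if j ∈ s then ρ j else 1) (mt z) i l) = ∫⁻ z, f z := by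
  induction s using Finset.induction_on with
  | empty =>
    intro f _
    have h2 : ∀ z : V m, sc (fun j => if j ∈ (∅ : Finset (Fin m)) then ρ j else 1) (mt z) = mt z := by
      intro z
      have h3 : (fun j => if j ∈ (∅ : Finset (Fin m)) then ρ j else 1) = fun _ => (1 : ℝ) := by
        funext j
        simp
      rw [h3, sc_one]
    rw [Finset.prod_empty, ENNReal.ofReal_one, one_mul]
    apply lintegral_congr
    intro z
    rw [h2 z]
    rfl
  | insert a s ha ih =>
    intro f hf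
    have hu : ∀ j, 0 < Function.update (1 : Fin m → ℝ) a (ρ a) j := by
      intro j
      by_cases hj : j = a
      · rw [hj, Function.update_self]
        exact h a
      · rw [Function.update_of_ne hj]
        exact one_pos
    have hp : ∀ j, 0 < (if j ∈ s then ρ j else 1) := by
      intro j
      split_ifs
      · exact h j
      · exact one_pos
    have hg : Measurable (fun z : V m => f (fun i l =>
        sc (Function.update 1 a (ρ a)) (mt z) i l)) := hf.comp (hS m _ hu).2.2.2.2.2.1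
    have e1 := ih _ hg
    have e2 := h1 m a (ρ a) (h a) f hf
    have hc : ∀ z : V m, sc (fun j => if j ∈ insert a s then ρ j else 1) (mt z) =
        sc (Function.update 1 a (ρ a)) (sc (fun j => if j ∈ s then ρ j else 1) (mt z)) := by
      intro z
      rw [sc_sc hS _ _ hp]
      congr 1
      funext j
      by_cases hj : j = a
      · rw [hj, Function.update_self, if_neg ha, if_pos (Finset.mem_insert_self a s), mul_one]
      · rw [Function.update_of_ne hj]
        by_cases hjs : j ∈ s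
        · rw [if_pos hjs, if_pos (Finset.mem_insert_of_mem hjs)]
          simp
        · rw [if_neg hjs, if_neg (fun h0 => (Finset.mem_insert.1 h0).elim hj hjs)]
          simp
    rw [← e2, ← e1, Finset.prod_insert ha, ENNReal.ofReal_mul (pow_nonneg (h a).le _), mul_assoc]
    have e3 : ∫⁻ z, f (fun i l => sc (fun j => if j ∈ insert a s then ρ j else 1) (mt z) i l) =
        ∫⁻ z, f (fun i l => sc (Function.update 1 a (ρ a))
          (mt (fun i l => sc (fun j => if j ∈ s then ρ j else 1) (mt z) i l)) i l) := by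
      apply lintegral_congr
      intro z
      rw [hc z]
      rfl
    rw [e3]

theorem pf_SCJ : T_SC1 → T_SCP → T_SCJ := by
  intro h1 hS m ρ hρ f hf
  classical
  have hv := vol_sc h1 hS ρ hρ Finset.univ
  have hu : (fun j : Fin m => if j ∈ Finset.univ then ρ j else 1) = ρ := by
    funext j
    rw [if_pos (Finset.mem_univ j)]
  rw [hu] at hv
  set P : ℝ := ∏ j, ρ j with hP
  have hP0 : 0 < P := Finset.prod_pos (fun j _ => hρ j)
  have hdet : Continuous (fun z : V m => (mt z).det) := Continuous.matrix_det continuous_id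
  have hw : Measurable (fun z : V m => ENNReal.ofReal ((|(mt z).det| ^ m)⁻¹)) :=
    ENNReal.measurable_ofReal.comp ((hdet.abs.pow m).measurable.inv)
  have hsm := (hS m ρ hρ).2.2.2.2.2.1
  have hfs : Measurable (fun z : V m => f (fun i l => sc ρ (mt z) i l)) := hf.comp hsm
  have hd := (hS m ρ hρ).2.1
  have hPm : P ^ m = (∏ j : Fin m, ρ j ^ (m - (j : ℕ))) * ∏ j : Fin m, ρ j ^ (j : ℕ) := by
    rw [hP, ← Finset.prod_pow, ← Finset.prod_mul_distrib]
    apply Finset.prod_congr rfl
    intro j _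
    rw [← pow_add]
    congr 1
    have := j.2
    omega
  have hQ0 : 0 ≤ ∏ j : Fin m, ρ j ^ (j : ℕ) := Finset.prod_nonneg (fun j _ => pow_nonneg (hρ j).le _)
  have hR0 : 0 ≤ ∏ j : Fin m, ρ j ^ (m - (j : ℕ)) :=
    Finset.prod_nonneg (fun j _ => pow_nonneg (hρ j).le _)
  have hF : Measurable (fun z : V m => ENNReal.ofReal ((|(mt z).det| ^ m)⁻¹) * f z) := hw.mul hf
  have e1 := hv _ hF
  have e2 : ∫⁻ z, f (fun i l => sc ρ (mt z) i l) ∂(hm m) =
      ∫⁻ z, ENNReal.ofReal ((|(mt z).det| ^ m)⁻¹) * f (fun i l => sc ρ (mt z) i l) := by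
    unfold hm
    rw [lintegral_withDensity_eq_lintegral_mul _ hw hfs]
    rfl
  have e3 : ∫⁻ z, f z ∂(hm m) = ∫⁻ z, ENNReal.ofReal ((|(mt z).det| ^ m)⁻¹) * f z := by
    unfold hm
    rw [lintegral_withDensity_eq_lintegral_mul _ hw hf]
    rfl
  have e4 : ∀ z : V m, ENNReal.ofReal ((|(mt z).det| ^ m)⁻¹) * f (fun i l => sc ρ (mt z) i l) =
      ENNReal.ofReal (P ^ m) * (ENNReal.ofReal ((|(mt (fun i l => sc ρ (mt z) i l)).det| ^ m)⁻¹) *
        f (fun i l => sc ρ (mt z) i l)) := by
    intro z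
    rw [← mul_assoc, ← ENNReal.ofReal_mul (pow_nonneg hP0.le _)]
    congr 2
    have h5 : (mt (fun i l => sc ρ (mt z) i l)).det = P * (mt z).det := hd (mt z)
    rw [h5, abs_mul, abs_of_pos hP0, mul_pow, mul_inv, ← mul_assoc,
      mul_inv_cancel₀ (pow_ne_zero m hP0.ne'), one_mul]
  rw [e2, e3, ← e1]
  simp_rw [e4]
  rw [lintegral_const_mul' _ _ ENNReal.ofReal_ne_top, hPm, mul_comm (∏ j : Fin m, ρ j ^ (m - (j : ℕ))),
    ENNReal.ofReal_mul hQ0, mul_assoc]

end Pool.Agent.H47.GZ
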